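import Pool.Agent.V7H4.EC.J

/-!
# The exact reach of the averaged and of the abelian case of Colmez's product formula

`E` is a CM field, and `K` is a CM field, Galois over `ℚ`, which contains the conjugates of `E`;
`G = Gal(K/ℚ)` and `c` is the complex conjugation.  The notions `IsCMType`, `a0` (Colmez's function
`a⁰_{E,ψ,Φ}`), `heightFn` (`A_Φ = ∑_{ψ ∈ Φ} a⁰_{E,ψ,Φ}`, the function of the Faltings height of the
abelian varieties of CM type `Φ`), `avgSpan` (the span of `1` and of the sums of the `A_Φ` over all CM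
types of a field, for which the formula is the averaged formula of Andreatta, Goren, Howard, Madapusi
Pera and of Yuan, Zhang) and `abSpan` (the span of the `a⁰_{E,ψ,Φ}` of the abelian fields, for which the
formula is due to Colmez and Obus) are those of the starting file `AveragedAndAbelian`.

A representation `ρ` of `G` is called odd if it is irreducible and `ρ(c) = -1`; it occurs in `E` if it has a
nonzero vector fixed by the subgroup which fixes `ψ₀(E)`, that is, if it is a constituent of the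
representation of `G` on the functions on the set of the embeddings of `E`.

(1), (2) For an individual CM type `Φ`: the function `a⁰_{E,ψ,Φ}` is in `avgSpan` if and only if for every
odd `ρ` with character `χ` the sum of `χ(g)` over the `g` with `gψ ∈ Φ` is rational, and `A_Φ` is in `avgSpan` if and
only if the sum of `#{ψ ∈ Φ : gψ ∈ Φ} χ(g)` over `g ∈ G` is rational.  For `avgSpan ⊔ abSpan` it is the same with the
odd `ρ` of dimension greater than one.
(3), (4) For all CM types of `E`: all `a⁰_{E,ψ,Φ}` are in `avgSpan` (in `avgSpan ⊔ abSpan`) if and only if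
the characters of all odd `ρ` (of dimension greater than one) which occur in `E` have rational values.
(5), (6) All `A_Φ` are in `avgSpan` (in `avgSpan ⊔ abSpan`) if and only if for all odd `ρ` (of dimension
greater than one) which occur in `E` the sum of the character and its complex conjugate has
rational values (equivalently: the field of the values of the character is `ℚ` or imaginary
quadratic).
So the averaged and the abelian case imply the product formula for the Faltings heights of all CM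
types of `E` exactly for these `E`.
(7) If a single CM type of `E` is not covered, then many are not: at least one quarter of the functions
`A_Φ` of `E`, respectively at least one half of the `a⁰_{E,ψ,Φ}` for every `ψ`, are outside the span.

The proof.  The function `A_Φ - #Φ/2` is, up to a factor, the sum over `x, y ∈ Φ` of the differences
`D_{x,y}(g)` of the numbers of the conjugates of `g` which map `x` to `y` and to `c y`.  A linear form `τ` on the
functions on `G` defines an operator which commutes with `G`, a scalar on each irreducible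
representation, and the values `τ(D_{x,y})` are its matrix coefficients on the odd part of the functions
on the set of embeddings.  A quadratic function of signs vanishes identically if and only if its
symmetric coefficients do, and otherwise it is nonzero on at least one quarter of the signs.  For
the criterion by the values of characters one uses the Galois group of the cyclotomic field, and for the
abelian functions that the sums of an irreducible character of dimension greater than one over the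
cosets of the commutator subgroup are zero.
-/

set_option autoImplicit false

open NumberField
open Pool.Agent.Results.MP_a2beea_nt.AveragedAndAbelian

namespace Pool.Agent.Results.MP_a2beea_nt.ExactCriterionH4

variable {E K : Type} [Field E] [NumberField E] [Field K] [NumberField K] [IsCMField K]

/-- `ρ` is irreducible, and the complex conjugation acts as `-1`. -/
def IsOdd {W : Type} [AddCommGroup W] [Module ℂ W] (ρ : Representation ℂ (K ≃ₐ[ℚ] K) W) : Prop :=
  ρ.IsIrreducible ∧ ∀ w : W, ρ (conjugation K) w = -w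

/-- There is a nonzero vector which is fixed by the automorphisms fixing the embedding `ψ₀`. -/
def Occurs (ψ₀ : E →ₐ[ℚ] K) {W : Type} [AddCommGroup W] [Module ℂ W]
    (ρ : Representation ℂ (K ≃ₐ[ℚ] K) W) : Prop :=
  ∃ w : W, w ≠ 0 ∧ ∀ g : K ≃ₐ[ℚ] K, act g ψ₀ = ψ₀ → ρ g w = w

/-- For all odd representations of dimension at least `d` the sum of `f(g) χ(g)` is rational. -/
def RationalPairing (f : (K ≃ₐ[ℚ] K) → ℚ) (d : ℕ) : Prop :=
  ∀ (W : Type) (_ : AddCommGroup W) (_ : Module ℂ W) (_ : FiniteDimensional ℂ W)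
    (ρ : Representation ℂ (K ≃ₐ[ℚ] K) W), IsOdd ρ → d ≤ Module.finrank ℂ W →
      ∃ q : ℚ, ∑ g : K ≃ₐ[ℚ] K, (f g : ℂ) * ρ.character g = (q : ℂ)

/-- The characters of the odd representations of dimension at least `d` which occur have rational
values. -/
def RationalCharacters (ψ₀ : E →ₐ[ℚ] K) (d : ℕ) : Prop :=
  ∀ (W : Type) (_ : AddCommGroup W) (_ : Module ℂ W) (_ : FiniteDimensional ℂ W)
    (ρ : Representation ℂ (K ≃ₐ[ℚ] K) W), IsOdd ρ → Occurs ψ₀ ρ → d ≤ Module.finrank ℂ W →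
      ∀ g : K ≃ₐ[ℚ] K, ∃ q : ℚ, ρ.character g = (q : ℂ)

/-- The same for the sum of the character and its complex conjugate. -/
def RationalCharacterSums (ψ₀ : E →ₐ[ℚ] K) (d : ℕ) : Prop :=
  ∀ (W : Type) (_ : AddCommGroup W) (_ : Module ℂ W) (_ : FiniteDimensional ℂ W)
    (ρ : Representation ℂ (K ≃ₐ[ℚ] K) W), IsOdd ρ → Occurs ψ₀ ρ → d ≤ Module.finrank ℂ W →
      ∀ g : K ≃ₐ[ℚ] K, ∃ q : ℚ, ρ.character g + ρ.character g⁻¹ = (q : ℂ)

lemma one_le {W : Type} [AddCommGroup W] [Module ℂ W] [FiniteDimensional ℂ W]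
    {ρ : Representation ℂ (K ≃ₐ[ℚ] K) W} (hρ : IsOdd ρ) : 1 ≤ Module.finrank ℂ W := by
  have h1 := Pool.Agent.V7H4.EC.finrank_ne ρ hρ.1
  have h2 : Module.finrank ℂ W ≠ 0 := by exact_mod_cast h1
  omega

open scoped Classical in
/-- **Main result.** -/
theorem result (E : Type) [Field E] [NumberField E] [IsCMField E]
    (K : Type) [Field K] [NumberField K] [IsGalois ℚ K] [IsCMField K] (ψ₀ : E →ₐ[ℚ] K) :
    (∀ (Φ : Finset (E →ₐ[ℚ] K)) (ψ : E →ₐ[ℚ] K), IsCMType Φ →
      (a0 ψ Φ ∈ avgSpan K ↔ RationalPairing (fun g => if act g ψ ∈ Φ then 1 else 0) 1) ∧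
      (a0 ψ Φ ∈ avgSpan K ⊔ abSpan K ↔
        RationalPairing (fun g => if act g ψ ∈ Φ then 1 else 0) 2)) ∧
    (∀ Φ : Finset (E →ₐ[ℚ] K), IsCMType Φ →
      (heightFn Φ ∈ avgSpan K ↔
        RationalPairing (fun g => ((Φ.filter fun ψ => act g ψ ∈ Φ).card : ℚ)) 1) ∧
      (heightFn Φ ∈ avgSpan K ⊔ abSpan K ↔
        RationalPairing (fun g => ((Φ.filter fun ψ => act g ψ ∈ Φ).card : ℚ)) 2)) ∧
    ((∀ Φ : Finset (E →ₐ[ℚ] K), IsCMType Φ → ∀ ψ, a0 ψ Φ ∈ avgSpan K) ↔
      RationalCharacters ψ₀ 1) ∧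
    ((∀ Φ : Finset (E →ₐ[ℚ] K), IsCMType Φ → ∀ ψ, a0 ψ Φ ∈ avgSpan K ⊔ abSpan K) ↔
      RationalCharacters ψ₀ 2) ∧
    ((∀ Φ : Finset (E →ₐ[ℚ] K), IsCMType Φ → heightFn Φ ∈ avgSpan K) ↔
      RationalCharacterSums ψ₀ 1) ∧
    ((∀ Φ : Finset (E →ₐ[ℚ] K), IsCMType Φ → heightFn Φ ∈ avgSpan K ⊔ abSpan K) ↔
      RationalCharacterSums ψ₀ 2) ∧
    ∀ V : Submodule ℚ ((K ≃ₐ[ℚ] K) → ℚ), V = avgSpan K ∨ V = avgSpan K ⊔ abSpan K →
      ((∃ Φ : Finset (E →ₐ[ℚ] K), IsCMType Φ ∧ heightFn Φ ∉ V) →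
        Nat.card {Φ : Finset (E →ₐ[ℚ] K) // IsCMType Φ} ≤
          4 * Nat.card {Φ : Finset (E →ₐ[ℚ] K) // IsCMType Φ ∧ heightFn Φ ∉ V}) ∧
      ((∃ (Φ : Finset (E →ₐ[ℚ] K)) (ψ : E →ₐ[ℚ] K), IsCMType Φ ∧ a0 ψ Φ ∉ V) →
        ∀ ψ : E →ₐ[ℚ] K, Nat.card {Φ : Finset (E →ₐ[ℚ] K) // IsCMType Φ} ≤
          2 * Nat.card {Φ : Finset (E →ₐ[ℚ] K) // IsCMType Φ ∧ a0 ψ Φ ∉ V}) := by
  refine ⟨fun Φ ψ hΦ => ⟨?_, ?_⟩, fun Φ hΦ => ⟨?_, ?_⟩, ?_, ?_, ?_, ?_, ?_⟩
  · rw [Pool.Agent.V7H4.EC.mem_avg_rat (a0_cm ψ hΦ)]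
    constructor
    · intro h W _ _ _ ρ hρ _
      obtain ⟨q, hq⟩ := h W _ _ inferInstance ρ hρ
      exact ⟨q, by rw [← hq, Pool.Agent.V7H4.EC.pair_a0]⟩
    · intro h W _ _ _ ρ hρ
      obtain ⟨q, hq⟩ := h W _ _ inferInstance ρ hρ (one_le hρ)
      exact ⟨q, by rw [← hq, Pool.Agent.V7H4.EC.pair_a0]⟩
  · rw [Pool.Agent.V7H4.EC.mem_sup_rat (a0_cm ψ hΦ)]
    constructor
    · intro h W _ _ _ ρ hρ h2
      obtain ⟨q, hq⟩ := h W _ _ inferInstance ρ hρ h2
      exact ⟨q, by rw [← hq, Pool.Agent.V7H4.EC.pair_a0]⟩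
    · intro h W _ _ _ ρ hρ h2
      obtain ⟨q, hq⟩ := h W _ _ inferInstance ρ hρ h2
      exact ⟨q, by rw [← hq, Pool.Agent.V7H4.EC.pair_a0]⟩
  · rw [Pool.Agent.V7H4.EC.mem_avg_rat (height_cm hΦ)]
    constructor
    · intro h W _ _ _ ρ hρ _
      obtain ⟨q, hq⟩ := h W _ _ inferInstance ρ hρ
      exact ⟨q, by rw [← hq, Pool.Agent.V7H4.EC.pair_height]⟩
    · intro h W _ _ _ ρ hρ
      obtain ⟨q, hq⟩ := h W _ _ inferInstance ρ hρ (one_le hρ)
      exact ⟨q, by rw [← hq, Pool.Agent.V7H4.EC.pair_height]⟩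
  · rw [Pool.Agent.V7H4.EC.mem_sup_rat (height_cm hΦ)]
    constructor
    · intro h W _ _ _ ρ hρ h2
      obtain ⟨q, hq⟩ := h W _ _ inferInstance ρ hρ h2
      exact ⟨q, by rw [← hq, Pool.Agent.V7H4.EC.pair_height]⟩
    · intro h W _ _ _ ρ hρ h2
      obtain ⟨q, hq⟩ := h W _ _ inferInstance ρ hρ h2
      exact ⟨q, by rw [← hq, Pool.Agent.V7H4.EC.pair_height]⟩
  · rw [Pool.Agent.V7H4.EC.field_a0_avg ψ₀]
    exact ⟨fun h W _ _ _ ρ h1 h2 _ => h W _ _ inferInstance ρ ⟨h1.1, h1.2, h2⟩,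
      fun h W _ _ _ ρ h1 => h W _ _ inferInstance ρ ⟨h1.1, h1.2.1⟩ h1.2.2
        (one_le (ρ := ρ) ⟨h1.1, h1.2.1⟩)⟩
  · rw [Pool.Agent.V7H4.EC.field_a0_sup ψ₀]
    exact ⟨fun h W _ _ _ ρ h1 h2 h3 => h W _ _ inferInstance ρ ⟨h1.1, h1.2, h2⟩ h3,
      fun h W _ _ _ ρ h1 h3 => h W _ _ inferInstance ρ ⟨h1.1, h1.2.1⟩ h1.2.2 h3⟩
  · rw [Pool.Agent.V7H4.EC.field_height_avg ψ₀]
    exact ⟨fun h W _ _ _ ρ h1 h2 _ => h W _ _ inferInstance ρ ⟨h1.1, h1.2, h2⟩,
      fun h W _ _ _ ρ h1 => h W _ _ inferInstance ρ ⟨h1.1, h1.2.1⟩ h1.2.2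
        (one_le (ρ := ρ) ⟨h1.1, h1.2.1⟩)⟩
  · rw [Pool.Agent.V7H4.EC.field_height_sup ψ₀]
    exact ⟨fun h W _ _ _ ρ h1 h2 h3 => h W _ _ inferInstance ρ ⟨h1.1, h1.2, h2⟩ h3,
      fun h W _ _ _ ρ h1 h3 => h W _ _ inferInstance ρ ⟨h1.1, h1.2.1⟩ h1.2.2 h3⟩
  · exact fun V hV => Pool.Agent.V7H4.EC.dich V hV

end Pool.Agent.Results.MP_a2beea_nt.ExactCriterionH4
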