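import Pool.Agent.V7H4.OC.Fo

/-!
# Colmez's product formula for the CM fields of degree eight

`E` is a CM field of degree `8`, and `K` is a CM field, Galois over `ℚ`, which contains the conjugates of
`E`.  The notions `IsCMType`, `a0` (Colmez's function `a⁰_{E,ψ,Φ}`), `heightFn`
(`A_Φ = ∑_{ψ ∈ Φ} a⁰_{E,ψ,Φ}`, the function of the Faltings height of the abelian varieties of CM type
`Φ`), `avgSpan` (the span of `1` and of the sums of the `A_Φ` over all CM types of a field, for which the
formula is the averaged formula of Andreatta, Goren, Howard, Madapusi Pera and of Yuan, Zhang) and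
`abSpan` (the span of the `a⁰_{E,ψ,Φ}` of the abelian fields, for which the formula is due to Colmez and
Obus) are those of the starting file `AveragedAndAbelian`.

(1) The functions `A_Φ` of all CM types `Φ` of `E` are in the span of `avgSpan` and `abSpan` if and only if
the Galois group of the Galois closure of `E` is not the dihedral group of order `16`.  So the product
formula for the Faltings heights follows from the averaged and the abelian case for all CM fields of
degree `8` with this one exception; the field `E⁺` and the group `Gal(E/E⁺)`, which acts by sign changes,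
are arbitrary.
(2) If the group is dihedral of order `16`, then `A_Φ` is in the span for NO CM type `Φ`, and for any two
CM types `Φ`, `Φ'` the function `A_Φ - A_Φ'` or `A_Φ + A_Φ'` is in `avgSpan`: the product formula for the
Faltings height of one CM type implies it for all CM types of `E`.

The proof.  Let `F` be the quartic field `E⁺`.  If `F` is Galois over `ℚ`, then the automorphism group of
`E` has exponent dividing `4`, or `E` is abelian over `ℚ`.  If `F` has no automorphism, then the Galois
group is two-transitive on the embeddings of `F`, and the theorem for two-transitive real subfields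
applies.  Otherwise `F` has one automorphism `s ≠ 1` (the Galois group of its closure is dihedral of order
`8`).  Let `c` be the complex conjugation, and let `N_x(u, v)` be the number of the conjugates of an element `g`
of `G = Gal(K/ℚ)` which map `u` to `v`.  By the criterion of `AveragedAndAbelian` and the expansion of
`A_Φ` one compares these numbers for `g` and `g'` with the same powers up to conjugation and `c`.  They
are equal unless `G` is generated by `c` and elements which act on the eight embeddings of `E` as the
symmetries of an octagon.  In this case the group of the closure is the dihedral group of order `16`,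
and the numbers for the rotation by `45` degrees and for its cube differ by a nonzero multiple of one
function, with the sign and the size depending on `Φ`.
-/

set_option autoImplicit false

open NumberField
open Pool.Agent.Results.MP_a2beea_nt.AveragedAndAbelian

namespace Pool.Agent.Results.MP_a2beea_nt.OcticH4

/-- The Galois group of the Galois closure of `E` (in `K`) is the dihedral group of order `16`. -/
def DihedralClosure (E K : Type) [Field E] [NumberField E] [Field K] [NumberField K] : Prop :=
  Nonempty ((IntermediateField.normalClosure ℚ E K ≃ₐ[ℚ] IntermediateField.normalClosure ℚ E K) ≃*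
    DihedralGroup 8)

/-- **Main result.** -/
theorem result (E : Type) [Field E] [NumberField E] [IsCMField E]
    (K : Type) [Field K] [NumberField K] [IsGalois ℚ K] [IsCMField K]
    (hEK : Nonempty (E →ₐ[ℚ] K)) (hE : Module.finrank ℚ E = 8) :
    ((∀ Φ : Finset (E →ₐ[ℚ] K), IsCMType Φ → heightFn Φ ∈ avgSpan K ⊔ abSpan K) ↔
      ¬ DihedralClosure E K) ∧
    (DihedralClosure E K →
      (∀ Φ : Finset (E →ₐ[ℚ] K), IsCMType Φ → heightFn Φ ∉ avgSpan K ⊔ abSpan K) ∧
      ∀ Φ Φ' : Finset (E →ₐ[ℚ] K), IsCMType Φ → IsCMType Φ' →
        heightFn Φ - heightFn Φ' ∈ avgSpan K ∨ heightFn Φ + heightFn Φ' ∈ avgSpan K) := by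
  obtain ⟨ψ₀⟩ := hEK
  refine ⟨⟨fun hall hd => ?_, fun hno Φ hΦ => ?_⟩, fun hd => ⟨fun Φ hΦ => ?_, fun Φ Φ' hΦ hΦ' => ?_⟩⟩
  · obtain ⟨Φ, hΦ⟩ := Pool.Agent.V7H4.OC.exists_type (E := E) (K := K)
    exact Pool.Agent.V7H4.OC.not_mem_octic hE hd ψ₀ hΦ (hall Φ hΦ)
  · exact Pool.Agent.V7H4.OC.height_octic hE hno ψ₀ hΦ
  · exact Pool.Agent.V7H4.OC.not_mem_octic hE hd ψ₀ hΦ
  · exact Pool.Agent.V7H4.OC.pair_octic hE hd ψ₀ hΦ hΦ'

end Pool.Agent.Results.MP_a2beea_nt.OcticH4
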