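import Pool.Agent.V7H4.PD.Fa

/-!
# Colmez's product formula for the CM fields of degree `2 p`

`E` is a CM field of degree `2 p`, `p` an odd prime number, `E⁺` is its maximal real subfield, and `K` is
a CM field, Galois over `ℚ`, which contains the conjugates of `E`.  The notions `IsCMType`, `a0`
(Colmez's function `a⁰_{E,ψ,Φ}`), `heightFn` (`A_Φ = ∑_{ψ ∈ Φ} a⁰_{E,ψ,Φ}`, the function of the Faltings
height of the abelian varieties of CM type `Φ`), `avgSpan` (the span of `1` and of the sums of the `A_Φ`
over all CM types of a field, for which the formula is the averaged formula of Andreatta, Goren, Howard,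
Madapusi Pera and of Yuan, Zhang) and `abSpan` (the span of the `a⁰_{E,ψ,Φ}` of the abelian fields, for
which the formula is due to Colmez and Obus) are those of the starting file `AveragedAndAbelian`.

(1) If `E` contains no imaginary quadratic field, then `a⁰_{E,ψ,Φ}` is in `avgSpan` for ALL CM types `Φ` of
`E` and all `ψ`: by the averaged formula Colmez's product formula holds for `E`.
(2) Let `E` contain an imaginary quadratic field.  Then `a⁰_{E,ψ,Φ}` is in the span of `avgSpan` and
`abSpan` for all `Φ` and `ψ` if and only if `E⁺` is Galois over `ℚ` or the Galois group acts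
two-transitively on the `p` embeddings of `E⁺`.
(3) Let `E` contain an imaginary quadratic field.  Then `A_Φ` is in the span of `avgSpan` and `abSpan` for
all `Φ` if and only if `E⁺` is Galois over `ℚ` or the Galois group acts transitively on the `p (p - 1) / 2`
pairs of embeddings of `E⁺`.

By the theorem of Burnside (which is proved here) the Galois group of the closure of `E⁺` is
two-transitive on the embeddings, or it is the semidirect product of a group of order `p` and a cyclic
group of order `d`, `d` a proper divisor of `p - 1`.  In the second case it is transitive on the pairs if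
and only if `d = (p - 1) / 2` and `p = 3` modulo `4`.  So the product formula for the Faltings heights
follows from the averaged and the abelian case for all CM fields `E` of degree `2 p`, except for
`E = E⁺ (√-m)`, where `E⁺` is a field of degree `p` with such a Galois group, `1 < d`, and
`d ≠ (p - 1) / 2` or `p = 1` modulo `4`; and these are real exceptions.  The first one is the degree
`10`, with the dihedral group of order `10`.

The proof.  Let `G = Gal(K/ℚ)`.  If `G` is not two-transitive on the embeddings of `E⁺`, then these are
numbered by the elements of the field with `p` elements, and `G` acts by affine maps.  If some element of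
`G` fixes all the embeddings of `E⁺`, but is neither the identity nor the complex conjugation on the
embeddings of `E`, then for all embeddings `x ≠ y`, `c y` of `E` some element of `G` fixes `x` and maps
`y` to `c y`, since the affine group is transitive on the translates of a pair, and `a⁰` is in `avgSpan`.
Otherwise an element of order `p` has two orbits on the embeddings of `E`, which are permuted by `G`, and
this defines an imaginary quadratic subfield of `E`.  In the cases (2), (3) let `s(g)` be the difference of
the numbers of the conjugates of `g` mapping `x` to `y` and to `c y` (in (3), symmetrized).  The powers of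
a commutator which is a translation show that all numbers modulo `p` (in (3), up to signs) are
multipliers of elements of `G`.  If `G` is transitive on the pairs, then the symmetrized differences are
determined by the average over all `y`.
-/

set_option autoImplicit false

open NumberField
open Pool.Agent.Results.MP_a2beea_nt.AveragedAndAbelian

namespace Pool.Agent.Results.MP_a2beea_nt.PrimeDegreeH4

/-- `E` contains an imaginary quadratic field: some element of `E` has the square `-d`, `d` a positive
integer. -/
def HasImaginaryQuadratic (E : Type) [Field E] : Prop :=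
  ∃ (d : ℕ) (t : E), 0 < d ∧ t ^ 2 = -(d : E)

/-- `Gal(K/ℚ)` acts two-transitively on the embeddings of `F` into `K`. -/
def TwoTransitive (F K : Type) [Field F] [NumberField F] [Field K] [NumberField K] : Prop :=
  ∀ σ τ σ' τ' : F →ₐ[ℚ] K, σ ≠ τ → σ' ≠ τ' →
    ∃ g : K ≃ₐ[ℚ] K, (g : K →ₐ[ℚ] K).comp σ = σ' ∧ (g : K →ₐ[ℚ] K).comp τ = τ'

/-- `Gal(K/ℚ)` acts transitively on the sets of two embeddings of `F` into `K`. -/
def TwoHomogeneous (F K : Type) [Field F] [NumberField F] [Field K] [NumberField K] : Prop :=
  ∀ σ τ σ' τ' : F →ₐ[ℚ] K, σ ≠ τ → σ' ≠ τ' →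
    ∃ g : K ≃ₐ[ℚ] K, ((g : K →ₐ[ℚ] K).comp σ = σ' ∧ (g : K →ₐ[ℚ] K).comp τ = τ') ∨
      ((g : K →ₐ[ℚ] K).comp σ = τ' ∧ (g : K →ₐ[ℚ] K).comp τ = σ')

/-- **Main result.** -/
theorem result (E : Type) [Field E] [NumberField E] [IsCMField E]
    (K : Type) [Field K] [NumberField K] [IsGalois ℚ K] [IsCMField K]
    (hEK : Nonempty (E →ₐ[ℚ] K)) (p : ℕ) (hp : p.Prime) (hp2 : p ≠ 2)
    (hE : Module.finrank ℚ E = 2 * p) :
    (¬ HasImaginaryQuadratic E →
      ∀ Φ : Finset (E →ₐ[ℚ] K), IsCMType Φ → ∀ ψ : E →ₐ[ℚ] K, a0 ψ Φ ∈ avgSpan K) ∧
    (HasImaginaryQuadratic E →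
      ((∀ Φ : Finset (E →ₐ[ℚ] K), IsCMType Φ → ∀ ψ : E →ₐ[ℚ] K, a0 ψ Φ ∈ avgSpan K ⊔ abSpan K) ↔
        (IsGalois ℚ (maximalRealSubfield E) ∨ TwoTransitive (maximalRealSubfield E) K))) ∧
    (HasImaginaryQuadratic E →
      ((∀ Φ : Finset (E →ₐ[ℚ] K), IsCMType Φ → heightFn Φ ∈ avgSpan K ⊔ abSpan K) ↔
        (IsGalois ℚ (maximalRealSubfield E) ∨ TwoHomogeneous (maximalRealSubfield E) K))) := by
  have : Fact p.Prime := ⟨hp⟩
  have hn : Module.finrank ℚ (maximalRealSubfield E) = p := by
    have := Pool.Agent.V7H4.CT.finrank_real (E := E)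
    omega
  refine ⟨fun hno Φ hΦ ψ => Pool.Agent.V7H4.PD.a0_prime hp2 hn hno hΦ ψ, fun h => ?_, fun h => ?_⟩
  · constructor
    · intro hall
      by_cases hG : IsGalois ℚ (maximalRealSubfield E)
      · exact Or.inl hG
      · obtain ⟨d, t, hd, ht⟩ := h
        exact Or.inr (Pool.Agent.V7H4.PD.two_of_mem hEK hn hd ht hG hall)
    · rintro (hG | h2) Φ hΦ ψ
      · exact Pool.Agent.N770.CP.prime_degree (by rw [hn]; exact hp) hΦ ψ
      · exact Submodule.mem_sup_left
          (Pool.Agent.V7H4.CT.a0_main hEK h2 (Or.inr (Or.inr (Or.inr h))) hΦ ψ)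
  · constructor
    · intro hall
      by_cases hG : IsGalois ℚ (maximalRealSubfield E)
      · exact Or.inl hG
      · obtain ⟨d, t, hd, ht⟩ := h
        exact Or.inr (Pool.Agent.V7H4.PD.homg_of_mem hEK hn hd ht hG hall)
    · rintro (hG | hh) Φ hΦ
      · have h1 : heightFn Φ = ∑ ψ ∈ Φ, a0 ψ Φ := by
          funext g
          rw [Finset.sum_apply]
          rfl
        rw [h1]
        exact Submodule.sum_mem _ (fun ψ _ =>
          Pool.Agent.N770.CP.prime_degree (by rw [hn]; exact hp) hΦ ψ)
      · obtain ⟨d, t, hd, ht⟩ := h
        exact Submodule.mem_sup_left (Pool.Agent.V7H4.PD.height_homg hEK hh hd ht hΦ)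

end Pool.Agent.Results.MP_a2beea_nt.PrimeDegreeH4
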