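import Pool.Agent.V7H4.CT.Gg

/-!
# Colmez's product formula for the CM fields whose maximal real subfield has a two-transitive group

`E` is a CM field, `E⁺` its maximal real subfield, `n = [E⁺ : ℚ]`, and `K` is a CM field, Galois over
`ℚ`, which contains the conjugates of `E`.  The notions `IsCMType`, `a0` (Colmez's function
`a⁰_{E,ψ,Φ}`), `heightFn` (`A_Φ = ∑_{ψ ∈ Φ} a⁰_{E,ψ,Φ}`, the function of the Faltings height of the
abelian varieties of CM type `Φ`), `avgSpan` (the span of `1` and of the sums of the `A_Φ` over all CM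
types of a field, for which the formula is the averaged formula of Andreatta, Goren, Howard, Madapusi
Pera and of Yuan, Zhang) and `abSpan` (the span of the `a⁰_{E,ψ,Φ}` of the abelian fields, for which the
formula is due to Colmez and Obus) are those of the starting file `AveragedAndAbelian`.

There is no condition on the quadratic extension `E / E⁺`.

(1) Let the Galois group act two-transitively on the `n` embeddings of `E⁺`.  Then `a⁰_{E,ψ,Φ}` is in
`avgSpan` for ALL CM types `Φ` of `E` and all `ψ`, if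
* `n` is odd, or
* `n > 2` and `n - 1` is a square, or
* `n > 2` and the action is three-transitive (for example, the Galois group of the closure of `E⁺` is the
  symmetric group, or the alternating group and `n ≥ 5`), or
* `E` contains an imaginary quadratic field.
(2) If the action is two-transitive and `n` is not congruent to `2` modulo `4`, or `n - 1` is a square,
then `A_Φ` is in `avgSpan` for all CM types `Φ` of `E`.
(3) For all CM fields `E` of degree `6` and all their CM types the functions `a⁰_{E,ψ,Φ}` are in the span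
of `avgSpan` and `abSpan`.

The proof.  Let `G = Gal(K/ℚ)`, let `X` be the set of the `2 n` embeddings of `E`, and let `s(g)` be the
difference of the numbers of the conjugates of `g` which map `x` to `y` and to `c y`.  Up to signs it
does not depend on the embeddings `x`, `y` of `E` with different restrictions to `E⁺`, since the action
is two-transitive.  If it is not zero, the signs form a matrix `S` of size `2 n` with entries `0`, `± 1`
which commutes with `G`, with `S x y = 0` only for `y = x`, `c x`; it is symmetric or antisymmetric, and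
`S ^ 3 = m S ^ 2 ± 4 (n - 1) S`.  If `S` is symmetric and `m ^ 2 + 16 (n - 1)` is a square, then
`S ^ p = S` modulo all large primes `p`, and `tr (g S)`, which is a multiple of `s(g)`, is the same for
`g` and `g ^ p`, since `tr ((g S) ^ p) = tr (g S)` modulo `p`.  By Dirichlet's theorem it only depends on
the group generated by `g`.  If `m ^ 2 + 16 (n - 1)` is not a square then `m = 0` (the trace of an
idempotent is an integer), and `S` is a conference matrix; a count modulo `8` shows that `4` divides
`n - 2`.  If `S` is antisymmetric, then `m = 0` and `4` divides `n`, and the contributions to `A_Φ`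
cancel.
-/

set_option autoImplicit false

open NumberField
open Pool.Agent.Results.MP_a2beea_nt.AveragedAndAbelian

namespace Pool.Agent.Results.MP_a2beea_nt.TwoTransitiveH4

/-- `Gal(K/ℚ)` acts two-transitively on the embeddings of `F` into `K`. -/
def TwoTransitive (F K : Type) [Field F] [NumberField F] [Field K] [NumberField K] : Prop :=
  ∀ σ τ σ' τ' : F →ₐ[ℚ] K, σ ≠ τ → σ' ≠ τ' →
    ∃ g : K ≃ₐ[ℚ] K, (g : K →ₐ[ℚ] K).comp σ = σ' ∧ (g : K →ₐ[ℚ] K).comp τ = τ'

/-- `Gal(K/ℚ)` acts three-transitively on the embeddings of `F` into `K`. -/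
def ThreeTransitive (F K : Type) [Field F] [NumberField F] [Field K] [NumberField K] : Prop :=
  ∀ σ τ υ σ' τ' υ' : F →ₐ[ℚ] K, σ ≠ τ → σ ≠ υ → τ ≠ υ → σ' ≠ τ' → σ' ≠ υ' → τ' ≠ υ' →
    ∃ g : K ≃ₐ[ℚ] K, (g : K →ₐ[ℚ] K).comp σ = σ' ∧ (g : K →ₐ[ℚ] K).comp τ = τ' ∧
      (g : K →ₐ[ℚ] K).comp υ = υ'

/-- **Main result.** -/
theorem result (E : Type) [Field E] [NumberField E] [IsCMField E]
    (K : Type) [Field K] [NumberField K] [IsGalois ℚ K] [IsCMField K]
    (hEK : Nonempty (E →ₐ[ℚ] K)) (n : ℕ) (hn : Module.finrank ℚ (maximalRealSubfield E) = n) :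
    (TwoTransitive (maximalRealSubfield E) K →
      (Odd n ∨ (2 < n ∧ IsSquare (n - 1)) ∨
        (2 < n ∧ ThreeTransitive (maximalRealSubfield E) K) ∨
        (∃ (d : ℕ) (t : E), 0 < d ∧ t ^ 2 = -(d : E))) →
      ∀ Φ : Finset (E →ₐ[ℚ] K), IsCMType Φ → ∀ ψ : E →ₐ[ℚ] K, a0 ψ Φ ∈ avgSpan K) ∧
    (TwoTransitive (maximalRealSubfield E) K → (n % 4 ≠ 2 ∨ IsSquare (n - 1)) →
      ∀ Φ : Finset (E →ₐ[ℚ] K), IsCMType Φ → heightFn Φ ∈ avgSpan K) ∧
    (Module.finrank ℚ E = 6 →
      ∀ Φ : Finset (E →ₐ[ℚ] K), IsCMType Φ → ∀ ψ : E →ₐ[ℚ] K, a0 ψ Φ ∈ avgSpan K ⊔ abSpan K) := by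
  subst hn
  have hpos : 0 < Module.finrank ℚ (maximalRealSubfield E) := Module.finrank_pos
  have hsq : IsSquare (Module.finrank ℚ (maximalRealSubfield E) - 1) →
      ∃ k : ℕ, Module.finrank ℚ (maximalRealSubfield E) = k ^ 2 + 1 := by
    rintro ⟨k, hk⟩
    exact ⟨k, by rw [pow_two, ← hk]; omega⟩
  refine ⟨fun h2 h Φ hΦ ψ => ?_, fun h2 h Φ hΦ => ?_, fun h6 Φ hΦ ψ => ?_⟩
  · refine Pool.Agent.V7H4.CT.a0_main hEK h2 ?_ hΦ ψ
    rcases h with h | ⟨h, h'⟩ | ⟨h, h'⟩ | h
    · exact Or.inl h
    · exact Or.inr (Or.inl ⟨h, hsq h'⟩)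
    · exact Or.inr (Or.inr (Or.inl ⟨h, h'⟩))
    · exact Or.inr (Or.inr (Or.inr h))
  · refine Pool.Agent.V7H4.CT.height_main hEK h2 ?_ hΦ
    rcases h with h | h
    · exact Or.inl h
    · exact Or.inr (hsq h)
  · exact Pool.Agent.V7H4.CT.sextic h6 hΦ ψ

end Pool.Agent.Results.MP_a2beea_nt.TwoTransitiveH4
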